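import Pool.Agent.Helper89.KS.Goals
import Pool.Agent.Helper89.GP.Basic

/-!
# Project KS (MP_480c30_co), goal CND: conditioning the exponential model
-/

namespace Pool.Agent.Helper50.KS

open Finset MeasureTheory Pool.Agent.Helper89.GP Pool.Agent.Helper89.KS

theorem LX_ad {n : ℕ} (R : Fin n → Fin n → Prop) (u w : Fin n) [DecidablePred fun σ :
    Equiv.Perm (Fin n) => po σ u < po σ w] :
    LX (ad R u w) = (LX R).filter fun σ => po σ u < po σ w := by
  ext σ
  rw [mem_filter, mem_LX, mem_LX]
  constructor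
  · intro h
    exact ⟨fun a b hab => h a b (Or.inl hab), h u w (Or.inr ⟨rfl, rfl⟩)⟩
  · rintro ⟨h1, h2⟩ a b (hab | ⟨rfl, rfl⟩)
    · exact h1 a b hab
    · exact h2

theorem cnd (henf : EnfStmt) (hpsf : PsfStmt) (hmuf : MufStmt) : CndStmt := by
  classical
  intro n R u w A hne huw hA
  have hLX := LX_ad R u w
  have hneR : (LX R).Nonempty := by
    obtain ⟨σ, hσ⟩ := hne
    rw [hLX, mem_filter] at hσ
    exact ⟨σ, hσ.1⟩
  have hpos := (henf n).2.1
  have hmeas : MeasurableSet (A ∩ {v : Fin n → ℝ | v u < v w}) :=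
    hA.inter (measurableSet_lt (measurable_pi_apply u) (measurable_pi_apply w))
  rw [(hmuf n R hneR).2.2.1 _ hmeas, (hmuf n (ad R u w) hne).2.2.1 A hA]
  -- the terms of the sum
  have h1 : ∀ σ ∈ LX R, (En n).real {e | cf σ e ∈ A ∩ {v : Fin n → ℝ | v u < v w}} =
      if po σ u < po σ w then (En n).real {e | cf σ e ∈ A} else 0 := by
    intro σ _
    split_ifs with h
    · apply measureReal_congr
      filter_upwards [hpos] with e he
      have hlt : cf σ e u < cf σ e w := (hpsf n (σ u) (σ w)).2.2.2 e he h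
      apply propext
      show (cf σ e ∈ A ∧ cf σ e u < cf σ e w) ↔ cf σ e ∈ A
      exact ⟨fun h2 => h2.1, fun h2 => ⟨h2, hlt⟩⟩
    · have h' : po σ w < po σ u := (po_lt_or huw).resolve_left h
      have h2 : (En n).real {e | cf σ e ∈ A ∩ {v : Fin n → ℝ | v u < v w}} =
          (En n).real (∅ : Set (Fin n → ℝ)) := by
        apply measureReal_congr
        filter_upwards [hpos] with e he
        have hlt : cf σ e w < cf σ e u := (hpsf n (σ w) (σ u)).2.2.2 e he h'
        apply propext
        show (cf σ e ∈ A ∧ cf σ e u < cf σ e w) ↔ False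
        exact ⟨fun h3 => lt_asymm hlt h3.2, fun h3 => h3.elim⟩
      rw [h2, measureReal_empty]
  rw [Ex_congr h1, Pr_def]
  unfold Ex
  rw [← Finset.sum_filter, hLX]
  have hc : (((LX R).filter fun σ => po σ u < po σ w).card : ℝ) ≠ 0 := by
    rw [← hLX]
    exact (card_pos_real hne).ne'
  field_simp

end Pool.Agent.Helper50.KS
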