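import Pool.Agent.Helper42.KS.Goals

set_option autoImplicit false

namespace Pool.Agent.Helper42.KS.PkSSL

open Polynomial

lemma hensel_pow (k p J : ℕ) [hp : Fact p.Prime] (hk : 1 ≤ k) (u : ℤ)
    (hu : ((p ^ (2 * padicValNat p k + 1) : ℕ) : ℤ) ∣ 1 - u) :
    ∃ z : ZMod (p ^ J), z ^ k = (u : ZMod (p ^ J)) := by
  set v := padicValNat p k with hv
  have hk0 : (k : ℚ_[p]) ≠ 0 := by
    exact_mod_cast (by omega : k ≠ 0)
  have hnk : ‖(k : ℤ_[p])‖ = (p : ℝ) ^ (-(v : ℤ)) := by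
    rw [PadicInt.norm_def]
    have h1 : (((k : ℤ_[p])) : ℚ_[p]) = (k : ℚ_[p]) := by norm_cast
    rw [h1, Padic.norm_eq_zpow_neg_valuation hk0, Padic.valuation_natCast]
  have hn1 : ‖((1 - u : ℤ) : ℤ_[p])‖ ≤ (p : ℝ) ^ (-((2 * v + 1 : ℕ) : ℤ)) := by
    rw [PadicInt.norm_int_le_pow_iff_dvd]
    exact_mod_cast hu
  have hp1 : (1 : ℝ) < p := by exact_mod_cast hp.out.one_lt
  have hlt : ‖((1 - u : ℤ) : ℤ_[p])‖ < ‖(k : ℤ_[p])‖ ^ 2 := by
    refine lt_of_le_of_lt hn1 ?_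
    rw [hnk, ← zpow_natCast, ← zpow_mul]
    apply zpow_lt_zpow_right₀ hp1
    push_cast
    omega
  let F : ℤ_[p][X] := X ^ k - C ((u : ℤ) : ℤ_[p])
  have hF1 : F.aeval (1 : ℤ_[p]) = ((1 - u : ℤ) : ℤ_[p]) := by
    simp [F]
  have hF2 : F.derivative.aeval (1 : ℤ_[p]) = (k : ℤ_[p]) := by
    simp [F, derivative_X_pow]
  have hnorm : ‖F.aeval (1 : ℤ_[p])‖ < ‖F.derivative.aeval (1 : ℤ_[p])‖ ^ 2 := by
    rw [hF1, hF2]; exact hlt
  obtain ⟨z, hz, -⟩ := hensels_lemma hnorm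
  have hz' : z ^ k = ((u : ℤ) : ℤ_[p]) := by
    have : z ^ k - ((u : ℤ) : ℤ_[p]) = 0 := by simpa [F] using hz
    exact sub_eq_zero.1 this
  refine ⟨PadicInt.toZModPow J z, ?_⟩
  rw [← map_pow, hz', map_intCast]

theorem thm : G_SSL := by
  intro k d n p J hk hp hd hJ
  haveI : Fact p.Prime := ⟨hp⟩
  set g := 2 * padicValNat p k + 1 with hg
  have hp2 : 2 ≤ p := hp.two_le
  have hpg : 2 ≤ p ^ g := le_trans hp2 (Nat.le_self_pow (by omega) p)
  obtain ⟨d', rfl⟩ : ∃ d', d = d' + 1 := ⟨d - 1, by omega⟩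
  haveI : NeZero (p ^ J) := ⟨(pow_pos (by omega) J).ne'⟩
  -- the residue r
  obtain ⟨r, hr1, hr2, hrn⟩ : ∃ r : ℕ, 1 ≤ r ∧ r ≤ p ^ g ∧ ((p ^ g : ℕ) : ℤ) ∣ (n : ℤ) - r := by
    by_cases h0 : n % p ^ g = 0
    · refine ⟨p ^ g, by omega, le_refl _, ?_⟩
      have : ((p ^ g : ℕ) : ℤ) ∣ (n : ℤ) := by exact_mod_cast Nat.dvd_of_mod_eq_zero h0
      exact dvd_sub this (dvd_refl _)
    · refine ⟨n % p ^ g, Nat.one_le_iff_ne_zero.2 h0, (Nat.mod_lt _ (by omega)).le, ?_⟩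
      have h := Nat.div_add_mod n (p ^ g)
      refine ⟨((n / p ^ g : ℕ) : ℤ), ?_⟩
      have h' : ((p ^ g : ℕ) : ℤ) * ((n / p ^ g : ℕ) : ℤ) + ((n % p ^ g : ℕ) : ℤ) = (n : ℤ) := by
        exact_mod_cast h
      linarith
  have hrd : r - 1 ≤ d' := by omega
  -- the tuples
  let c : Fin d' → ℕ := fun i => if i.val < r - 1 then 1 else 0
  let y : (Fin d' → Fin (p ^ (J - g))) → Fin d' → ℕ := fun f i => c i + p ^ g * (f i).val
  have hc1 : ∀ i, c i ≤ 1 := by intro i; simp only [c]; split_ifs <;> omega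
  have hylt : ∀ f i, y f i < p ^ J := by
    intro f i
    have h1 : p ^ J = p ^ g * p ^ (J - g) := by rw [← pow_add]; congr 1; omega
    have h2 := (f i).isLt
    have h3 : p ^ g * ((f i).val + 1) ≤ p ^ g * p ^ (J - g) := Nat.mul_le_mul_left _ h2
    have := hc1 i
    simp only [y]
    rw [h1]
    rw [Nat.mul_add, Nat.mul_one] at h3
    omega
  have hsumc : (∑ i : Fin d', c i ^ k) = r - 1 := by
    have h1 : ∀ i : Fin d', c i ^ k = if i.val < r - 1 then 1 else 0 := by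
      intro i
      simp only [c]
      split_ifs
      · simp
      · rw [zero_pow (by omega)]
    rw [Finset.sum_congr rfl (fun i _ => h1 i), Fin.sum_univ_eq_sum_range (fun i => if i < r - 1 then 1 else 0) d']
    rw [← Finset.sum_filter]
    simp only [Finset.sum_const, smul_eq_mul, mul_one]
    have : (Finset.range d').filter (fun i => i < r - 1) = Finset.range (r - 1) := by
      ext i; simp only [Finset.mem_filter, Finset.mem_range]; omega
    rw [this, Finset.card_range]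
  have hroot : ∀ f : Fin d' → Fin (p ^ (J - g)), ∃ z : ZMod (p ^ J),
      z ^ k = (((n : ℤ) - ∑ i, (y f i : ℤ) ^ k : ℤ) : ZMod (p ^ J)) := by
    intro f
    apply hensel_pow k p J hk
    have h1 : ((p ^ g : ℕ) : ℤ) ∣ (∑ i, (y f i : ℤ) ^ k) - ∑ i, (c i : ℤ) ^ k := by
      rw [← Finset.sum_sub_distrib]
      apply Finset.dvd_sum
      intro i _
      refine dvd_trans ?_ (sub_dvd_pow_sub_pow (y f i : ℤ) (c i : ℤ) k)
      refine ⟨((f i).val : ℤ), ?_⟩
      simp only [y]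
      push_cast
      ring
    have h2 : (∑ i, (c i : ℤ) ^ k) = (r : ℤ) - 1 := by
      have : ((∑ i : Fin d', c i ^ k : ℕ) : ℤ) = ((r - 1 : ℕ) : ℤ) := by rw [hsumc]
      push_cast at this
      rw [this]
      push_cast [hr1]
      ring
    rw [h2] at h1
    have h3 := dvd_sub h1 hrn
    have h4 : (∑ i, (y f i : ℤ) ^ k) - ((r : ℤ) - 1) - ((n : ℤ) - r) =
        1 - ((n : ℤ) - ∑ i, (y f i : ℤ) ^ k) := by ring
    rw [h4] at h3
    exact h3
  choose z hz using hroot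
  let x : (Fin d' → Fin (p ^ (J - g))) → (Fin (d' + 1) → ZMod (p ^ J)) := fun f =>
    Fin.cons (z f) (fun i => (y f i : ZMod (p ^ J)))
  have hx : ∀ f, ∑ i, x f i ^ k = (n : ZMod (p ^ J)) := by
    intro f
    rw [Fin.sum_univ_succ]
    simp only [x, Fin.cons_zero, Fin.cons_succ]
    rw [hz f]
    push_cast
    ring
  let Φ : (Fin d' → Fin (p ^ (J - g))) →
      {x : Fin (d' + 1) → ZMod (p ^ J) // ∑ i, x i ^ k = (n : ZMod (p ^ J))} :=
    fun f => ⟨x f, hx f⟩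
  have hinj : Function.Injective Φ := by
    intro f f' hff
    have h0 : x f = x f' := congrArg Subtype.val hff
    funext i
    have h1 : x f i.succ = x f' i.succ := by rw [h0]
    simp only [x, Fin.cons_succ] at h1
    have h2 : y f i = y f' i := by
      have h3 := (ZMod.natCast_eq_natCast_iff' _ _ _).1 h1
      rw [Nat.mod_eq_of_lt (hylt f i), Nat.mod_eq_of_lt (hylt f' i)] at h3
      exact h3
    simp only [y] at h2
    have h4 : p ^ g * (f i).val = p ^ g * (f' i).val := by omega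
    exact Fin.ext (Nat.eq_of_mul_eq_mul_left (by omega) h4)
  have hcard := Nat.card_le_card_of_injective Φ hinj
  have h5 : Nat.card (Fin d' → Fin (p ^ (J - g))) = p ^ ((J - g) * d') := by
    simp [Nat.card_eq_fintype_card, pow_mul]
  rw [h5] at hcard
  simpa using hcard

end Pool.Agent.Helper42.KS.PkSSL
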